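import Pool.Agent.Helper30.S1.Top
import Pool.Agent.Helper47.S1.Wind

/-!
# Every convex body has a direction with the structure `S1`
-/

set_option autoImplicit false
namespace Pool.Agent.Helper30.S1
open Pool.Agent.Helper59.Pack Pool.Agent.Helper69.MD Pool.Agent.Helper12.S1

theorem zeroStatement : ZeroStatement := fun ξ h1 h2 h3 => exists_zero ξ h1 h2 h3

/-- After a suitable rotation the vertical projection `Q` of a convex body `K` has a circumscribed
parallelogram which touches `Q` in four points `c ± p`, `c ± q` with one common centre `c`, and
the sides through `c ± q` are parallel to the chord `[c - p, c + p]`. -/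
theorem exists_S1 {K : Set E3} (hK : IsConvexBody K) :
    ∃ g : E3 ≃ₗᵢ[ℝ] E3, ∃ (c p r : P2) (a : ℝ), S1Data (proj (g '' K)) c p r a :=
  exists_S1_aux hK zeroStatement

end Pool.Agent.Helper30.S1
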