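import Pool.Agent.Helper30.S1.Zero

/-!
# The limit: exact support points with a common centre
-/

set_option autoImplicit false
namespace Pool.Agent.Helper30.S1
open Complex Metric MeasureTheory Filter Topology
open scoped ComplexConjugate RealInnerProductSpace
open Pool.Agent.Helper59.Pack Pool.Agent.Helper69.MD Pool.Agent.Helper63.ML

/-- `x` is, up to the error `ε`, a point of `K` whose projection is farthest in direction `u`. -/
def Supp (K : Set E3) (ε : ℝ) (c u : ℂ) (x : E3) : Prop :=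
  ∀ y ∈ K, (conj u * LL c y).re ≤ (conj u * LL c x).re + ε

theorem isClosed_supp (K : Set E3) {X : Type*} [TopologicalSpace X] {c u : X → ℂ} {x : X → E3}
    {ε : X → ℝ} (hc : Continuous c) (hu : Continuous u) (hx : Continuous x) (hε : Continuous ε) :
    IsClosed {w : X | Supp K (ε w) (c w) (u w) (x w)} := by
  have h : {w : X | Supp K (ε w) (c w) (u w) (x w)} =
      ⋂ y ∈ K, {w : X | (conj (u w) * LL (c w) y).re ≤ (conj (u w) * LL (c w) (x w)).re + ε w} := by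
    ext w
    simp [Supp]
  rw [h]
  refine isClosed_biInter fun y _ => ?_
  have h1 := continuous_LL.comp (hc.prodMk (continuous_const (y := y)))
  have h2 := continuous_LL.comp (hc.prodMk hx)
  simp only [Function.comp_def] at h1 h2
  have h3 : Continuous fun w => conj (u w) := Complex.continuous_conj.comp hu
  exact isClosed_le (Complex.continuous_re.comp (h3.mul h1))
    ((Complex.continuous_re.comp (h3.mul h2)).add hε)

theorem supp_proj {K : Set E3} {P : E3 → E3} {R : ℝ} (hR : ∀ x ∈ K, ‖x‖ ≤ R)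
    (hPK : ∀ v, P v ∈ K) (hP : ∀ v, ∀ y ∈ K, ⟪v - P v, y - P v⟫ ≤ 0) {n : ℝ} (hn : 0 < n)
    (c u : ℂ) : Supp K (2 * R ^ 2 / n) c u (P (n • ad c u)) := by
  intro y hy
  set x := P (n • ad c u) with hx
  have h1 := hP (n • ad c u) y hy
  rw [← hx] at h1
  have h2 : ⟪n • ad c u - x, y - x⟫ =
      n * (⟪ad c u, y⟫ - ⟪ad c u, x⟫) - ⟪x, y - x⟫ := by
    rw [inner_sub_left, inner_smul_left, inner_sub_right (ad c u)]
    simp
  have h3 : ⟪x, y - x⟫ ≤ 2 * R ^ 2 := by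
    have hxR := hR x (hPK _)
    have hyR := hR y hy
    have hR0 : 0 ≤ R := (norm_nonneg _).trans hxR
    calc ⟪x, y - x⟫ ≤ ‖x‖ * ‖y - x‖ := real_inner_le_norm _ _
      _ ≤ R * (R + R) := by
        gcongr
        exact (norm_sub_le _ _).trans (add_le_add hyR hxR)
      _ = 2 * R ^ 2 := by ring
  rw [← inner_ad, ← inner_ad]
  rw [h2] at h1
  have h4 : ⟪ad c u, y⟫ - ⟪ad c u, x⟫ ≤ 2 * R ^ 2 / n := by
    rw [le_div_iff₀ hn]
    linarith
  linarith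

/-- The width of the projection. -/
theorem supp_width {K : Set E3} {z : E3} {ρ : ℝ} (hρ : 0 ≤ ρ) (hz : closedBall z ρ ⊆ K) {c u : ℂ}
    (hc : ‖c‖ ≤ 1) (hu : ‖u‖ = 1) {ε : ℝ} {x x' : E3} (h : Supp K ε c u x)
    (h' : Supp K ε c (-u) x') :
    2 * ρ - 2 * ε ≤ (conj u * (LL c x - LL c x')).re := by
  have hn : ‖ad c u‖ = 1 := by
    have := inner_ad_self hc hu
    rw [real_inner_self_eq_norm_sq] at this
    nlinarith [norm_nonneg (ad c u)]
  have m1 : z + ρ • ad c u ∈ K := hz (by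
    rw [mem_closedBall, dist_eq_norm, add_sub_cancel_left, norm_smul, hn, mul_one,
      Real.norm_of_nonneg hρ])
  have m2 : z - ρ • ad c u ∈ K := hz (by
    rw [mem_closedBall, dist_eq_norm, sub_sub_cancel_left, norm_neg, norm_smul, hn, mul_one,
      Real.norm_of_nonneg hρ])
  have h1 := h _ m1
  have h2 := h' _ m2
  rw [← inner_ad, ← inner_ad] at h1 h2
  rw [ad_neg, inner_neg_left, inner_neg_left, inner_sub_right, inner_smul_right,
    inner_ad_self hc hu] at h2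
  rw [inner_add_right, inner_smul_right, inner_ad_self hc hu] at h1
  have h3 : (conj u * (LL c x - LL c x')).re = ⟪ad c u, x⟫ - ⟪ad c u, x'⟫ := by
    rw [inner_ad, inner_ad, mul_sub, sub_re]
  rw [h3]
  linarith

theorem exists_exact {K : Set E3} (hK : IsConvexBody K) (hz : ZeroStatement) :
    ∃ c : ℂ, ‖c‖ ≤ 1 ∧ ∃ u m : ℂ, ‖u‖ = 1 ∧ ‖m‖ = 1 ∧ ∃ x ∈ K, ∃ x' ∈ K, ∃ y ∈ K, ∃ y' ∈ K,
      Supp K 0 c u x ∧ Supp K 0 c (-u) x' ∧ Supp K 0 c m y ∧ Supp K 0 c (-m) y' ∧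
      (‖LL c x - LL c x'‖ : ℂ) * m = I * (LL c x - LL c x') ∧
      LL c x + LL c x' = LL c y + LL c y' := by
  obtain ⟨z, hz0⟩ := hK.interior_nonempty
  obtain ⟨ρ, hρ, hball⟩ := Metric.nhds_basis_closedBall.mem_iff.1
    (mem_interior_iff_mem_nhds.1 hz0)
  obtain ⟨R, hR⟩ := hK.isCompact.isBounded.exists_norm_le
  obtain ⟨P, hPc, hPK, hP⟩ := exists_metric_proj hK.convex hK.isCompact
    ⟨z, interior_subset hz0⟩
  have hstep : ∀ k : ℕ, ∃ w : ℂ × ℂ × ℂ × E3 × E3 × E3 × E3,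
      w ∈ closedBall (0 : ℂ) 1 ×ˢ sphere (0 : ℂ) 1 ×ˢ sphere (0 : ℂ) 1 ×ˢ K ×ˢ K ×ˢ K ×ˢ K ∧
      Supp K (2 * R ^ 2 / (2 * R ^ 2 / ρ + 1 + k)) w.1 w.2.1 w.2.2.2.1 ∧
      Supp K (2 * R ^ 2 / (2 * R ^ 2 / ρ + 1 + k)) w.1 (-w.2.1) w.2.2.2.2.1 ∧
      Supp K (2 * R ^ 2 / (2 * R ^ 2 / ρ + 1 + k)) w.1 w.2.2.1 w.2.2.2.2.2.1 ∧
      Supp K (2 * R ^ 2 / (2 * R ^ 2 / ρ + 1 + k)) w.1 (-w.2.2.1) w.2.2.2.2.2.2 ∧
      (‖LL w.1 w.2.2.2.1 - LL w.1 w.2.2.2.2.1‖ : ℂ) * w.2.2.1 =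
        I * (LL w.1 w.2.2.2.1 - LL w.1 w.2.2.2.2.1) ∧
      LL w.1 w.2.2.2.1 + LL w.1 w.2.2.2.2.1 =
        LL w.1 w.2.2.2.2.2.1 + LL w.1 w.2.2.2.2.2.2 := by
    intro k
    set n : ℝ := 2 * R ^ 2 / ρ + 1 + k with hn
    have hn0 : 0 < n := by positivity
    have hs : ∀ c u, Supp K (2 * R ^ 2 / n) c u (P (n • ad c u)) := fun c u =>
      supp_proj hR hPK hP hn0 c u
    have hlt : 2 * R ^ 2 / n < ρ := by
      rw [div_lt_iff₀ hn0, hn]
      have : ρ * (2 * R ^ 2 / ρ + 1 + k) = 2 * R ^ 2 + ρ * (1 + k) := by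
        field_simp
        ring
      rw [this]
      have : 0 < ρ * (1 + (k : ℝ)) := by positivity
      linarith
    obtain ⟨c, hc, u, hu, m, hm, h1, h2⟩ := approx hPc (n := n) hz (by
      intro c hc u hu h0
      have h3 := supp_width hρ.le hball (by simpa using hc) (by simpa using hu) (hs c u)
        (hs c (-u))
      rw [h0, mul_zero, zero_re] at h3
      linarith)
    exact ⟨(c, u, m, P (n • ad c u), P (n • ad c (-u)), P (n • ad c m), P (n • ad c (-m))),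
      ⟨hc, hu, hm, hPK _, hPK _, hPK _, hPK _⟩, hs _ _, hs _ _, hs _ _, hs _ _, h1, h2⟩
  choose w hw using hstep
  have hcomp : IsCompact (closedBall (0 : ℂ) 1 ×ˢ sphere (0 : ℂ) 1 ×ˢ sphere (0 : ℂ) 1 ×ˢ K ×ˢ K
      ×ˢ K ×ˢ K) :=
    (isCompact_closedBall _ _).prod ((isCompact_sphere _ _).prod ((isCompact_sphere _ _).prod
      (hK.isCompact.prod (hK.isCompact.prod (hK.isCompact.prod hK.isCompact)))))
  obtain ⟨a, ha, φ, hφ, hlim⟩ := hcomp.tendsto_subseq (fun k => (hw k).1)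
  have hε : Tendsto (fun k : ℕ => 2 * R ^ 2 / (2 * R ^ 2 / ρ + 1 + (k : ℝ))) atTop (𝓝 0) := by
    refine Tendsto.div_atTop tendsto_const_nhds ?_
    exact tendsto_atTop_add_const_left _ _ tendsto_natCast_atTop_atTop
  have hε' := hε.comp hφ.tendsto_atTop
  have hlim' : Tendsto (fun k => ((2 * R ^ 2 / (2 * R ^ 2 / ρ + 1 + ((φ k : ℕ) : ℝ)), w (φ k)) :
      ℝ × ℂ × ℂ × ℂ × E3 × E3 × E3 × E3)) atTop (𝓝 (0, a)) := hε'.prodMk_nhds hlim
  have c0 : Continuous fun q : ℝ × ℂ × ℂ × ℂ × E3 × E3 × E3 × E3 => q.1 := by fun_prop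
  have c1 : Continuous fun q : ℝ × ℂ × ℂ × ℂ × E3 × E3 × E3 × E3 => q.2.1 := by fun_prop
  have c2 : Continuous fun q : ℝ × ℂ × ℂ × ℂ × E3 × E3 × E3 × E3 => q.2.2.1 := by fun_prop
  have c3 : Continuous fun q : ℝ × ℂ × ℂ × ℂ × E3 × E3 × E3 × E3 => q.2.2.2.1 := by fun_prop
  have c4 : Continuous fun q : ℝ × ℂ × ℂ × ℂ × E3 × E3 × E3 × E3 => q.2.2.2.2.1 := by fun_prop
  have c5 : Continuous fun q : ℝ × ℂ × ℂ × ℂ × E3 × E3 × E3 × E3 => q.2.2.2.2.2.1 := by fun_prop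
  have c6 : Continuous fun q : ℝ × ℂ × ℂ × ℂ × E3 × E3 × E3 × E3 => q.2.2.2.2.2.2.1 := by
    fun_prop
  have c7 : Continuous fun q : ℝ × ℂ × ℂ × ℂ × E3 × E3 × E3 × E3 => q.2.2.2.2.2.2.2 := by
    fun_prop
  have g1 := (isClosed_supp K c1 c2 c4 c0).mem_of_tendsto hlim'
    (Eventually.of_forall fun k => (hw (φ k)).2.1)
  have g2 := (isClosed_supp K c1 c2.neg c5 c0).mem_of_tendsto hlim'
    (Eventually.of_forall fun k => (hw (φ k)).2.2.1)
  have g3 := (isClosed_supp K c1 c3 c6 c0).mem_of_tendsto hlim'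
    (Eventually.of_forall fun k => (hw (φ k)).2.2.2.1)
  have g4 := (isClosed_supp K c1 c3.neg c7 c0).mem_of_tendsto hlim'
    (Eventually.of_forall fun k => (hw (φ k)).2.2.2.2.1)
  have l4 := continuous_LL.comp (c1.prodMk c4)
  have l5 := continuous_LL.comp (c1.prodMk c5)
  have l6 := continuous_LL.comp (c1.prodMk c6)
  have l7 := continuous_LL.comp (c1.prodMk c7)
  simp only [Function.comp_def] at l4 l5 l6 l7
  have g5 := (isClosed_eq ((Complex.continuous_ofReal.comp (l4.sub l5).norm).mul c3)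
    (continuous_const.mul (l4.sub l5))).mem_of_tendsto hlim'
    (Eventually.of_forall fun k => (hw (φ k)).2.2.2.2.2.1)
  have g6 := (isClosed_eq (l4.add l5) (l6.add l7)).mem_of_tendsto hlim'
    (Eventually.of_forall fun k => (hw (φ k)).2.2.2.2.2.2)
  obtain ⟨a1, a2, a3, a4, a5, a6, a7⟩ := ha
  exact ⟨a.1, by simpa using a1, a.2.1, a.2.2.1, by simpa using a2, by simpa using a3,
    a.2.2.2.1, a4, a.2.2.2.2.1, a5, a.2.2.2.2.2.1, a6, a.2.2.2.2.2.2, a7, g1, g2, g3, g4, g5, g6⟩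

end Pool.Agent.Helper30.S1
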