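import Pool.Agent.Helper63.ML.GeoQ

/-!
# Metric projections and the support points of the plane projections
-/

set_option autoImplicit false
namespace Pool.Agent.Helper30.S1
open Complex Metric MeasureTheory
open scoped ComplexConjugate RealInnerProductSpace
open Pool.Agent.Helper59.Pack Pool.Agent.Helper69.MD Pool.Agent.Helper63.ML

/-- The vector of space which represents the functional `x ↦ Re (conj u * LL c x)`. -/
noncomputable def ad (c u : ℂ) : E3 :=
  !₂[(conj u * (c ^ 2 - (hh c : ℂ) ^ 2)).re, (conj u * (I * (c ^ 2 + (hh c : ℂ) ^ 2))).re,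
    (conj u * (-(2 * c * (hh c : ℂ)))).re]

theorem inner_ad (c u : ℂ) (x : E3) : ⟪ad c u, x⟫ = (conj u * LL c x).re := by
  rw [PiLp.inner_apply, Fin.sum_univ_three]
  simp only [ad, LL]
  simp
  ring

theorem ad_neg (c u : ℂ) : ad c (-u) = -ad c u := by
  ext i
  fin_cases i <;> simp [ad]

theorem ad_circle {c : ℂ} (hc : ‖c‖ = 1) (u : ℂ) : ad c u = ad 1 ((c⁻¹) ^ 2 * u) := by
  have h : ∀ x, ⟪ad c u, x⟫ = ⟪ad 1 ((c⁻¹) ^ 2 * u), x⟫ := by
    intro x
    rw [inner_ad, inner_ad, LL_circle hc, map_mul, map_pow, map_inv₀]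
    congr 1
    have h1 : conj c * c = 1 := by
      rw [mul_comm, Complex.mul_conj, Complex.normSq_eq_norm_sq, hc]; simp
    have h2 : (conj c)⁻¹ = c := by
      rw [inv_eq_iff_eq_inv]
      exact eq_inv_of_mul_eq_one_left h1
    rw [h2]
    ring
  exact ext_inner_right ℝ h

theorem continuous_ad : Continuous fun p : ℂ × ℂ => ad p.1 p.2 := by
  have h0 : Continuous fun p : ℂ × ℂ => (hh p.1 : ℂ) :=
    Complex.continuous_ofReal.comp (continuous_hh.comp continuous_fst)
  have hs : Continuous fun p : ℂ × ℂ => conj p.2 := Complex.continuous_conj.comp continuous_snd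
  have e1 : Continuous fun p : ℂ × ℂ => conj p.2 * (p.1 ^ 2 - (hh p.1 : ℂ) ^ 2) :=
    hs.mul ((continuous_fst.pow 2).sub (h0.pow 2))
  have e2 : Continuous fun p : ℂ × ℂ => conj p.2 * (I * (p.1 ^ 2 + (hh p.1 : ℂ) ^ 2)) :=
    hs.mul (continuous_const.mul ((continuous_fst.pow 2).add (h0.pow 2)))
  have e3 : Continuous fun p : ℂ × ℂ => conj p.2 * (-(2 * p.1 * (hh p.1 : ℂ))) :=
    hs.mul (((continuous_const.mul continuous_fst).mul h0).neg)
  unfold ad
  refine (PiLp.continuous_toLp 2 _).comp ?_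
  refine continuous_pi fun i => ?_
  fin_cases i
  · exact Complex.continuous_re.comp e1
  · exact Complex.continuous_re.comp e2
  · exact Complex.continuous_re.comp e3

theorem inner_ad_self {c : ℂ} (hc : ‖c‖ ≤ 1) {u : ℂ} (hu : ‖u‖ = 1) : ⟪ad c u, ad c u⟫ = 1 := by
  obtain ⟨g, hg⟩ := exists_frame (c := c) (by simpa using hc)
  have hu2 : u.re ^ 2 + u.im ^ 2 = 1 := by
    have : ‖u‖ ^ 2 = u.re ^ 2 + u.im ^ 2 := by
      rw [← Complex.normSq_eq_norm_sq, Complex.normSq_apply]; ring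
    rw [← this, hu]; norm_num
  set w : E3 := g.symm !₂[u.re, u.im, 0] with hw
  have h : ∀ x, ⟪ad c u, x⟫ = ⟪w, x⟫ := by
    intro x
    rw [inner_ad, hg]
    have h1 : ⟪w, x⟫ = ⟪(!₂[u.re, u.im, 0] : E3), g x⟫ := by
      rw [hw, ← g.inner_map_map, g.apply_symm_apply]
    rw [h1, PiLp.inner_apply, Fin.sum_univ_three]
    simp
    ring
  have h2 : ad c u = w := ext_inner_right ℝ h
  rw [h2, hw, g.symm.inner_map_map, PiLp.inner_apply, Fin.sum_univ_three]
  simp
  nlinarith

/-- The metric projection to a compact convex set. -/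
theorem exists_metric_proj {K : Set E3} (hc : Convex ℝ K) (hk : IsCompact K) (hne : K.Nonempty) :
    ∃ P : E3 → E3, Continuous P ∧ (∀ v, P v ∈ K) ∧ ∀ v, ∀ y ∈ K, ⟪v - P v, y - P v⟫ ≤ 0 := by
  have hex : ∀ v : E3, ∃ x ∈ K, ∀ y ∈ K, ⟪v - x, y - x⟫ ≤ 0 := by
    intro v
    obtain ⟨x, hx, hxn⟩ := exists_norm_eq_iInf_of_complete_convex hne hk.isComplete hc v
    exact ⟨x, hx, (norm_eq_iInf_iff_real_inner_le_zero hc hx).1 hxn⟩
  choose P hP hP' using hex
  refine ⟨P, ?_, hP, hP'⟩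
  have hl : LipschitzWith 1 P := by
    apply LipschitzWith.of_dist_le_mul
    intro v w
    rw [NNReal.coe_one, one_mul, dist_eq_norm, dist_eq_norm]
    have h1 := hP' v (P w) (hP w)
    have h2 := hP' w (P v) (hP v)
    have h3 : ‖P v - P w‖ ^ 2 ≤ ⟪v - w, P v - P w⟫ := by
      rw [← real_inner_self_eq_norm_sq]
      have e : ⟪v - P v, P w - P v⟫ + ⟪w - P w, P v - P w⟫ =
          ⟪P v - P w, P v - P w⟫ - ⟪v - w, P v - P w⟫ := by
        simp only [inner_sub_left, inner_sub_right]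
        ring
      linarith
    have h4 := real_inner_le_norm (v - w) (P v - P w)
    by_contra hlt
    push Not at hlt
    have h5 : 0 < ‖P v - P w‖ := lt_of_le_of_lt (norm_nonneg _) hlt
    nlinarith
  exact hl.continuous

end Pool.Agent.Helper30.S1
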