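import Pool.Agent.Helper30.S1.Limit
import Pool.Agent.Helper12.S1.Defs

/-!
# The existence of a direction with the structure `S1`
-/

set_option autoImplicit false
namespace Pool.Agent.Helper30.S1
open Complex Metric MeasureTheory Filter Topology
open scoped ComplexConjugate RealInnerProductSpace
open Pool.Agent.Helper59.Pack Pool.Agent.Helper69.MD Pool.Agent.Helper63.ML Pool.Agent.Helper12.S1

theorem exists_S1_aux {K : Set E3} (hK : IsConvexBody K) (hz : ZeroStatement) :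
    ∃ g : E3 ≃ₗᵢ[ℝ] E3, ∃ (c p r : P2) (a : ℝ), S1Data (proj (g '' K)) c p r a := by
  obtain ⟨c, hc, u, m, hu, hm, x, hx, x', hx', y, hy, y', hy', s1, s2, s3, s4, e1, e2⟩ :=
    exists_exact hK hz
  obtain ⟨g, hg⟩ := exists_frame (c := c) (by simpa using hc)
  have hF : Fr c g := hg
  refine ⟨g, ?_⟩
  obtain ⟨z, hz0⟩ := hK.interior_nonempty
  obtain ⟨ρ, hρ, hball⟩ := Metric.nhds_basis_closedBall.mem_iff.1
    (mem_interior_iff_mem_nhds.1 hz0)
  have w1 := supp_width hρ.le hball hc hu s1 s2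
  have w2 := supp_width hρ.le hball hc hm s3 s4
  -- points of the plane
  obtain ⟨X, hX⟩ : ∃ X : P2, X = pr (g x) := ⟨_, rfl⟩
  obtain ⟨X', hX'⟩ : ∃ X : P2, X = pr (g x') := ⟨_, rfl⟩
  obtain ⟨Y, hY⟩ : ∃ X : P2, X = pr (g y) := ⟨_, rfl⟩
  obtain ⟨Y', hY'⟩ : ∃ X : P2, X = pr (g y') := ⟨_, rfl⟩
  have mX : X ∈ proj (g '' K) := by rw [hX]; exact ⟨g x, ⟨x, hx, rfl⟩, rfl⟩
  have mX' : X' ∈ proj (g '' K) := by rw [hX']; exact ⟨g x', ⟨x', hx', rfl⟩, rfl⟩
  have mY : Y ∈ proj (g '' K) := by rw [hY]; exact ⟨g y, ⟨y, hy, rfl⟩, rfl⟩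
  have mY' : Y' ∈ proj (g '' K) := by rw [hY']; exact ⟨g y', ⟨y', hy', rfl⟩, rfl⟩
  rw [hF.eq, hF.eq, ← hX, ← hX'] at w1 e1
  rw [hF.eq, hF.eq, ← hY, ← hY'] at w2
  rw [hF.eq, hF.eq, hF.eq, hF.eq, ← hX, ← hX', ← hY, ← hY'] at e2
  -- the support inequalities in the plane
  have t1 : ∀ w ∈ proj (g '' K), (conj u * toC w).re ≤ (conj u * toC X).re := by
    rintro w ⟨_, ⟨k, hk, rfl⟩, rfl⟩
    have := s1 k hk
    rwa [hF.eq, hF.eq, ← hX, add_zero] at this
  have t2 : ∀ w ∈ proj (g '' K), (conj u * toC X').re ≤ (conj u * toC w).re := by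
    rintro w ⟨_, ⟨k, hk, rfl⟩, rfl⟩
    have := s2 k hk
    rw [hF.eq, hF.eq, ← hX', add_zero, map_neg, neg_mul, neg_mul, neg_re, neg_re] at this
    linarith
  have t3 : ∀ w ∈ proj (g '' K), (conj m * toC w).re ≤ (conj m * toC Y).re := by
    rintro w ⟨_, ⟨k, hk, rfl⟩, rfl⟩
    have := s3 k hk
    rwa [hF.eq, hF.eq, ← hY, add_zero] at this
  have t4 : ∀ w ∈ proj (g '' K), (conj m * toC Y').re ≤ (conj m * toC w).re := by
    rintro w ⟨_, ⟨k, hk, rfl⟩, rfl⟩
    have := s4 k hk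
    rw [hF.eq, hF.eq, ← hY', add_zero, map_neg, neg_mul, neg_mul, neg_re, neg_re] at this
    linarith
  simp only [mul_re, conj_re, conj_im, sub_re, sub_im, toC_re, toC_im] at t1 t2 t3 t4 w1 w2
  -- the direction `m`
  obtain ⟨N, hN⟩ : ∃ N : ℝ, N = ‖toC X - toC X'‖ := ⟨_, rfl⟩
  rw [← hN] at e1
  have e1r := congrArg Complex.re e1
  have e1i := congrArg Complex.im e1
  have e2r := congrArg Complex.re e2
  have e2i := congrArg Complex.im e2
  simp only [mul_re, mul_im, add_re, add_im, sub_re, sub_im, toC_re, toC_im, ofReal_re, ofReal_im,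
    I_re, I_im] at e1r e1i e2r e2i
  have hN0 : 0 < N := by
    rw [hN, norm_pos_iff]
    intro h0
    have h1 := congrArg Complex.re h0
    have h2 := congrArg Complex.im h0
    simp only [sub_re, sub_im, toC_re, toC_im, zero_re, zero_im] at h1 h2
    rw [h1, h2] at w1
    linarith
  -- the data
  obtain ⟨p, hp⟩ : ∃ p : P2, p = (1 / 2 : ℝ) • (X - X') := ⟨_, rfl⟩
  obtain ⟨q, hq⟩ : ∃ q : P2, q = (1 / 2 : ℝ) • (Y - Y') := ⟨_, rfl⟩
  obtain ⟨O, hO⟩ : ∃ O : P2, O = (1 / 2 : ℝ) • (X + X') := ⟨_, rfl⟩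
  have p0 : p 0 = 1 / 2 * (X 0 - X' 0) := by rw [hp]; rfl
  have p1 : p 1 = 1 / 2 * (X 1 - X' 1) := by rw [hp]; rfl
  have q0 : q 0 = 1 / 2 * (Y 0 - Y' 0) := by rw [hq]; rfl
  have q1 : q 1 = 1 / 2 * (Y 1 - Y' 1) := by rw [hq]; rfl
  have O0 : O 0 = 1 / 2 * (X 0 + X' 0) := by rw [hO]; rfl
  have O1 : O 1 = 1 / 2 * (X 1 + X' 1) := by rw [hO]; rfl
  have d1 : det2 p q = N / 2 * (m.re * q 0 + m.im * q 1) := by
    simp only [det2]
    rw [p0, p1]
    linear_combination (-(q 0) / 2) * e1r - (q 1 / 2) * e1i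
  have dpq : 0 < det2 p q := by
    rw [d1, q0, q1]
    have : 0 < N / 2 * (ρ) := by positivity
    nlinarith
  have up : 0 < u.re * p 0 + u.im * p 1 := by
    rw [p0, p1]
    linarith
  obtain ⟨a, ha⟩ : ∃ a : ℝ, a = (u.re * q 0 + u.im * q 1) / (u.re * p 0 + u.im * p 1) := ⟨_, rfl⟩
  have ha' : a * (u.re * p 0 + u.im * p 1) = u.re * q 0 + u.im * q 1 := by
    rw [ha, div_mul_cancel₀ _ up.ne']
  have dpr : det2 p (q - a • p) = det2 p q := by
    simp only [det2, Pi.sub_apply, Pi.smul_apply, smul_eq_mul]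
    ring
  have eq : a • p + (q - a • p) = q := by abel
  refine ⟨O, p, q - a • p, a, ⟨?_, ?_, ?_, ?_, ?_, ?_, ?_⟩⟩
  · rw [dpr]; exact dpq
  · intro w hw
    have h1 := t1 w hw
    have h2 := t2 w hw
    have h3 : det2 (w - O) (q - a • p) * (u.re * p 0 + u.im * p 1) =
        (u.re * (w 0 - O 0) + u.im * (w 1 - O 1)) * det2 p q := by
      simp only [det2, Pi.sub_apply, Pi.smul_apply, smul_eq_mul]
      linear_combination (p 0 * (w 1 - O 1) - p 1 * (w 0 - O 0)) * ha'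
    have h4 : |u.re * (w 0 - O 0) + u.im * (w 1 - O 1)| ≤ u.re * p 0 + u.im * p 1 := by
      rw [abs_le, p0, p1, O0, O1]
      constructor <;> linarith
    rw [dpr]
    have h5 : |det2 (w - O) (q - a • p)| * (u.re * p 0 + u.im * p 1) ≤
        det2 p q * (u.re * p 0 + u.im * p 1) := by
      calc |det2 (w - O) (q - a • p)| * (u.re * p 0 + u.im * p 1)
          = |det2 (w - O) (q - a • p) * (u.re * p 0 + u.im * p 1)| := by
            rw [abs_mul, abs_of_pos up]
        _ = |u.re * (w 0 - O 0) + u.im * (w 1 - O 1)| * det2 p q := by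
            rw [h3, abs_mul, abs_of_pos dpq]
        _ ≤ (u.re * p 0 + u.im * p 1) * det2 p q := by gcongr
        _ = _ := by ring
    exact le_of_mul_le_mul_right h5 up
  · intro w hw
    have h1 := t3 w hw
    have h2 := t4 w hw
    rw [dpr, d1]
    have h3 : det2 p (w - O) = N / 2 * (m.re * (w 0 - O 0) + m.im * (w 1 - O 1)) := by
      simp only [det2, Pi.sub_apply]
      rw [p0, p1]
      linear_combination (-(w 0 - O 0) / 2) * e1r - ((w 1 - O 1) / 2) * e1i
    have h4 : |m.re * (w 0 - O 0) + m.im * (w 1 - O 1)| ≤ m.re * q 0 + m.im * q 1 := by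
      have h5 : m.re * (X 0 + X' 0) = m.re * (Y 0 + Y' 0) := by rw [e2r]
      have h6 : m.im * (X 1 + X' 1) = m.im * (Y 1 + Y' 1) := by rw [e2i]
      rw [abs_le, q0, q1, O0, O1]
      constructor <;> linarith
    rw [h3, abs_mul, abs_of_pos (by positivity : (0 : ℝ) < N / 2)]
    gcongr
  · have : O + p = X := by
      rw [hO, hp]; module
    rw [this]; exact mX
  · have : O - p = X' := by
      rw [hO, hp]; module
    rw [this]; exact mX'
  · have : O + q = Y := by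
      apply P2_ext
      · rw [Pi.add_apply, O0, q0]; linarith
      · rw [Pi.add_apply, O1, q1]; linarith
    rw [eq, this]; exact mY
  · have : O - q = Y' := by
      apply P2_ext
      · rw [Pi.sub_apply, O0, q0]; linarith
      · rw [Pi.sub_apply, O1, q1]; linarith
    rw [eq, this]; exact mY'

end Pool.Agent.Helper30.S1
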