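import Pool.Agent.Helper30.S1.Proj

/-!
# The approximate structure `S1`

For every large `n` there are a plane projection `LL c` and a unit vector `u` such that the points
of `K` next to `n • ad c (± u)`, `n • ad c (± m)` have a common centre in the projection.
-/

set_option autoImplicit false
namespace Pool.Agent.Helper30.S1
open Complex Metric MeasureTheory
open scoped ComplexConjugate RealInnerProductSpace
open Pool.Agent.Helper59.Pack Pool.Agent.Helper69.MD Pool.Agent.Helper63.ML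

/-- The statement on the winding numbers (see `Pool/Agent/Helper47/S1/Wind.lean`). -/
def ZeroStatement : Prop := ∀ ξ : ℂ → ℂ → ℂ,
    ContinuousOn (fun p : ℂ × ℂ => ξ p.1 p.2) (closedBall 0 1 ×ˢ sphere 0 1) →
    (∀ c ∈ closedBall (0 : ℂ) 1, ∀ u ∈ sphere (0 : ℂ) 1, ξ c (-u) = ξ c u) →
    (∀ c u : ℂ, ‖c‖ = 1 → ‖u‖ = 1 → ξ c u = c ^ 2 * ξ 1 ((c⁻¹) ^ 2 * u)) →
    ∃ c ∈ closedBall (0 : ℂ) 1, ∃ u ∈ sphere (0 : ℂ) 1, ξ c u = 0

theorem approx_abs {p : ℂ → ℂ → ℂ} (hz : ZeroStatement)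
    (hpc : Continuous fun q : ℂ × ℂ => p q.1 q.2)
    (hpcirc : ∀ c u : ℂ, ‖c‖ = 1 → p c u = c ^ 2 * p 1 ((c⁻¹) ^ 2 * u))
    (hne : ∀ c ∈ closedBall (0 : ℂ) 1, ∀ u ∈ sphere (0 : ℂ) 1, p c u - p c (-u) ≠ 0) :
    ∃ c ∈ closedBall (0 : ℂ) 1, ∃ u ∈ sphere (0 : ℂ) 1, ∃ m ∈ sphere (0 : ℂ) 1,
      (‖p c u - p c (-u)‖ : ℂ) * m = I * (p c u - p c (-u)) ∧
      p c u + p c (-u) = p c m + p c (-m) := by
  obtain ⟨e, he⟩ : ∃ e : ℂ → ℂ → ℂ, ∀ c u, e c u = p c u - p c (-u) := ⟨_, fun _ _ => rfl⟩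
  obtain ⟨ν, hν⟩ : ∃ ν : ℂ → ℂ → ℂ, ∀ c u, ν c u = I * e c u / (‖e c u‖ : ℂ) :=
    ⟨_, fun _ _ => rfl⟩
  have hpm : Continuous fun q : ℂ × ℂ => p q.1 (-q.2) := by
    have h1 : Continuous fun q : ℂ × ℂ => ((q.1, -q.2) : ℂ × ℂ) :=
      continuous_fst.prodMk continuous_snd.neg
    exact hpc.comp h1
  have hec : Continuous fun q : ℂ × ℂ => e q.1 q.2 := by
    simp only [he]
    exact hpc.sub hpm
  have hne' : ∀ c ∈ closedBall (0 : ℂ) 1, ∀ u ∈ sphere (0 : ℂ) 1, e c u ≠ 0 := by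
    intro c hc u hu
    rw [he]
    exact hne c hc u hu
  have hνc : ContinuousOn (fun q : ℂ × ℂ => ν q.1 q.2) (closedBall 0 1 ×ˢ sphere 0 1) := by
    simp only [hν]
    refine ContinuousOn.div (continuous_const.mul hec).continuousOn
      (Complex.continuous_ofReal.comp hec.norm).continuousOn ?_
    rintro ⟨c, u⟩ ⟨hc, hu⟩
    have := norm_pos_iff.2 (hne' c hc u hu)
    exact_mod_cast this.ne'
  have hνs : ∀ c ∈ closedBall (0 : ℂ) 1, ∀ u ∈ sphere (0 : ℂ) 1, ν c u ∈ sphere (0 : ℂ) 1 := by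
    intro c hc u hu
    have h1 := norm_pos_iff.2 (hne' c hc u hu)
    rw [mem_sphere_zero_iff_norm, hν, norm_div, norm_mul, Complex.norm_I, one_mul,
      Complex.norm_real, norm_norm, div_self h1.ne']
  have heneg : ∀ c u, e c (-u) = -e c u := by
    intro c u
    rw [he, he, neg_neg]
    ring
  have hνneg : ∀ c u, ν c (-u) = -ν c u := by
    intro c u
    rw [hν, hν, heneg, norm_neg]
    ring
  have hecirc : ∀ c u : ℂ, ‖c‖ = 1 → e c u = c ^ 2 * e 1 ((c⁻¹) ^ 2 * u) := by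
    intro c u hc
    rw [he, he, hpcirc c u hc, hpcirc c (-u) hc, mul_neg]
    ring
  have hνcirc : ∀ c u : ℂ, ‖c‖ = 1 → ν c u = c ^ 2 * ν 1 ((c⁻¹) ^ 2 * u) := by
    intro c u hc
    rw [hν, hν, hecirc c u hc, norm_mul, norm_pow, hc]
    simp
    ring
  obtain ⟨c, hc, u, hu, h0⟩ := hz (fun c u => p c u + p c (-u) - p c (ν c u) - p c (-ν c u))
    (by
      have hq : ContinuousOn (fun q : ℂ × ℂ => ((q.1, ν q.1 q.2) : ℂ × ℂ))
          (closedBall 0 1 ×ˢ sphere 0 1) := continuousOn_fst.prodMk hνc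
      have h1 : ContinuousOn (fun q : ℂ × ℂ => p q.1 (ν q.1 q.2))
          (closedBall 0 1 ×ˢ sphere 0 1) := hpc.comp_continuousOn hq
      have h2 : ContinuousOn (fun q : ℂ × ℂ => p q.1 (-ν q.1 q.2))
          (closedBall 0 1 ×ˢ sphere 0 1) := hpm.comp_continuousOn hq
      exact ((hpc.add hpm).continuousOn.sub h1).sub h2)
    (by
      intro c _ u _
      simp only [hνneg, neg_neg]
      ring)
    (by
      intro c u hc _
      have hc0 : c ≠ 0 := by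
        rintro rfl
        simp at hc
      rw [hpcirc c u hc, hpcirc c (-u) hc, hpcirc c (ν c u) hc, hpcirc c (-ν c u) hc,
        hνcirc c u hc]
      have e1 : (c⁻¹) ^ 2 * (c ^ 2 * ν 1 ((c⁻¹) ^ 2 * u)) = ν 1 ((c⁻¹) ^ 2 * u) := by
        field_simp
      have e2 : (c⁻¹) ^ 2 * -(c ^ 2 * ν 1 ((c⁻¹) ^ 2 * u)) = -ν 1 ((c⁻¹) ^ 2 * u) := by
        field_simp
      rw [e1, e2, mul_neg]
      ring)
  refine ⟨c, hc, u, hu, ν c u, hνs c hc u hu, ?_, ?_⟩
  · have h1 := norm_pos_iff.2 (hne' c hc u hu)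
    have h2 : (‖e c u‖ : ℂ) ≠ 0 := by exact_mod_cast h1.ne'
    rw [← he, hν]
    field_simp
  · linear_combination h0

theorem approx {P : E3 → E3} (hP : Continuous P) {n : ℝ} (hz : ZeroStatement)
    (hne : ∀ c ∈ closedBall (0 : ℂ) 1, ∀ u ∈ sphere (0 : ℂ) 1,
      LL c (P (n • ad c u)) - LL c (P (n • ad c (-u))) ≠ 0) :
    ∃ c ∈ closedBall (0 : ℂ) 1, ∃ u ∈ sphere (0 : ℂ) 1, ∃ m ∈ sphere (0 : ℂ) 1,
      (‖LL c (P (n • ad c u)) - LL c (P (n • ad c (-u)))‖ : ℂ) * m =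
        I * (LL c (P (n • ad c u)) - LL c (P (n • ad c (-u)))) ∧
      LL c (P (n • ad c u)) + LL c (P (n • ad c (-u))) =
        LL c (P (n • ad c m)) + LL c (P (n • ad c (-m))) := by
  refine approx_abs (p := fun c u => LL c (P (n • ad c u))) hz ?_ ?_ hne
  · have h1 : Continuous fun q : ℂ × ℂ => ((q.1, P (n • ad q.1 q.2)) : ℂ × E3) :=
      continuous_fst.prodMk (hP.comp (continuous_ad.const_smul n))
    have h2 := continuous_LL.comp h1
    simp only [Function.comp_def] at h2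
    exact h2
  · intro c u hc
    rw [LL_circle hc, ad_circle hc]

end Pool.Agent.Helper30.S1
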